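import Mathlib

namespace Pool.Agent.H.MP_b9f640_co

open SimpleGraph

abbrev W := ℕ × Bool

def adjB (x y : W) : Bool :=
  (!x.2 && !y.2 && (y.1 == x.1 + 1 || x.1 == y.1 + 1)) || ((x.2 != y.2) && x.1 == y.1) ||
    (x.2 && y.2 && (y.1 == x.1 + 2 || x.1 == y.1 + 2))

def Good (n : ℕ) (L0 L : List W) : Prop :=
  L.Nodup ∧ (∀ x ∈ L, x.1 < n) ∧ L.length = 2 * n ∧ L.IsChain (fun x y => adjB x y = true) ∧
    L0 <:+: L ∧ ((L.head? = some (0, false) ∧ L.getLast? = some (n - 1, false)) ∨
      (L.head? = some (n - 1, false) ∧ L.getLast? = some (n - 1, true)))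

theorem step (n : ℕ) (hn : 1 ≤ n) (L0 L : List W) (h : Good n L0 L) :
    ∃ L', Good (n + 6) L0 L' := by
  obtain ⟨h1, h2, h3, h4, h5, h6⟩ := h
  rcases h6 with ⟨ha, hb⟩ | ⟨ha, hb⟩
  · refine ⟨L ++ [(n, false), (n, true), (n + 2, true), (n + 4, true), (n + 4, false),
      (n + 3, false), (n + 2, false), (n + 1, false), (n + 1, true), (n + 3, true),
      (n + 5, true), (n + 5, false)], ?_, ?_, ?_, ?_, ?_, Or.inl ⟨?_, ?_⟩⟩
    · rw [List.nodup_append]
      refine ⟨h1, by simp, ?_⟩
      intro a ha' b hb' hab
      have := h2 a ha'
      subst hab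
      simp only [List.mem_cons, List.not_mem_nil, or_false] at hb'
      rcases hb' with h | h | h | h | h | h | h | h | h | h | h | h <;> (rw [h] at this; simp at this)
    · intro x hx
      rw [List.mem_append] at hx
      rcases hx with hx | hx
      · have := h2 x hx; omega
      · simp only [List.mem_cons, List.not_mem_nil, or_false] at hx
        rcases hx with h | h | h | h | h | h | h | h | h | h | h | h <;> (rw [h]; simp)
    · simp [h3]; omega
    · rw [List.isChain_append]
      refine ⟨h4, by simp [adjB], ?_⟩
      intro x hx y hy
      rw [hb] at hx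
      simp at hx hy
      subst hx; subst hy
      simp [adjB]; omega
    · exact h5.trans (List.prefix_append _ _).isInfix
    · rw [List.head?_append, ha]; simp
    · simp
  · refine ⟨[(n + 5, false), (n + 4, false), (n + 4, true), (n + 2, true), (n, true), (n, false)]
      ++ (L ++ [(n + 1, true), (n + 1, false), (n + 2, false), (n + 3, false), (n + 3, true),
      (n + 5, true)]), ?_, ?_, ?_, ?_, ?_, Or.inr ⟨?_, ?_⟩⟩
    · rw [List.nodup_append, List.nodup_append]
      refine ⟨by simp, ⟨h1, by simp, ?_⟩, ?_⟩
      · intro a ha' b hb' hab
        have := h2 a ha'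
        subst hab
        simp only [List.mem_cons, List.not_mem_nil, or_false] at hb'
        rcases hb' with h | h | h | h | h | h <;> (rw [h] at this; simp at this)
      · intro a ha' b hb' hab
        subst hab
        rw [List.mem_append] at hb'
        simp only [List.mem_cons, List.not_mem_nil, or_false] at ha' hb'
        rcases hb' with hb' | hb'
        · have := h2 a hb'
          rcases ha' with h | h | h | h | h | h <;> (rw [h] at this; simp at this)
        · rcases ha' with h | h | h | h | h | h <;> (rw [h] at hb'; simp at hb')
    · intro x hx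
      rw [List.mem_append, List.mem_append] at hx
      rcases hx with hx | hx | hx
      · simp only [List.mem_cons, List.not_mem_nil, or_false] at hx
        rcases hx with h | h | h | h | h | h <;> (rw [h]; simp)
      · have := h2 x hx; omega
      · simp only [List.mem_cons, List.not_mem_nil, or_false] at hx
        rcases hx with h | h | h | h | h | h <;> (rw [h]; simp)
    · simp [h3]; omega
    · rw [List.isChain_append, List.isChain_append]
      refine ⟨by simp [adjB], ⟨h4, by simp [adjB], ?_⟩, ?_⟩
      · intro x hx y hy
        rw [hb] at hx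
        simp at hx hy
        subst hx; subst hy
        simp [adjB]; omega
      · intro x hx y hy
        rw [List.head?_append, ha] at hy
        simp at hx hy
        subst hx; subst hy
        simp [adjB]; omega
    · exact (h5.trans (List.prefix_append _ _).isInfix).trans (List.suffix_append _ _).isInfix
    · simp
    · rw [← List.append_assoc, List.getLast?_append]; simp

def bases : List (List W) :=
  [[(0,false), (0,true), (2,true), (2,false), (1,false), (1,true), (3,true), (3,false), (4,false),
    (4,true), (6,true), (8,true), (8,false), (7,false), (6,false), (5,false), (5,true), (7,true),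
    (9,true), (9,false)],
   [(0,false), (0,true), (2,true), (4,true), (4,false), (3,false), (2,false), (1,false), (1,true),
    (3,true), (5,true), (5,false), (6,false), (6,true), (8,true), (8,false), (7,false), (7,true),
    (9,true), (9,false)],
   [(0,false), (0,true), (2,true), (4,true), (6,true), (8,true), (8,false), (7,false), (6,false),
    (5,false), (4,false), (3,false), (2,false), (1,false), (1,true), (3,true), (5,true), (7,true),
    (9,true), (9,false)],
   [(9,false), (8,false), (8,true), (6,true), (4,true), (4,false), (3,false), (2,false), (2,true),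
    (0,true), (0,false), (1,false), (1,true), (3,true), (5,true), (5,false), (6,false), (7,false),
    (7,true), (9,true)]]

theorem base_good : ∀ L0 ∈ bases, Good 10 L0 L0 := by
  unfold Good
  decide +kernel

theorem good_all (k : ℕ) (L0 : List W) (h : L0 ∈ bases) : ∃ L, Good (6 * k + 10) L0 L := by
  induction k with
  | zero => exact ⟨L0, base_good L0 h⟩
  | succ k ih =>
    obtain ⟨L, hL⟩ := ih
    have := step _ (by omega) L0 L hL
    rwa [show 6 * k + 10 + 6 = 6 * (k + 1) + 10 by ring] at this

def nb (x : W) : List W :=
  if x.2 then [(x.1 + 2, true), (x.1 - 2, true), (x.1, false)]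
  else [(x.1 + 1, false), (x.1 - 1, false), (x.1, true)]

/-- all lifted walks with `j` steps ending (as the last entry) in column 16 -/
def ext : ℕ → List (List W)
  | 0 => [[(16, false)], [(16, true)]]
  | j + 1 => (ext j).flatMap fun l => match l with
      | [] => []
      | x :: t => (nb x).map fun y => y :: x :: t

def sh (d : ℕ) (x : W) : W := (x.1 + d, x.2)

theorem cover : ∀ j ∈ List.range 5, ∀ w ∈ ext j, w.Nodup →
    ∃ L0 ∈ bases, ∃ d ∈ List.range 25, w <:+: L0.map (sh d) ∨ w.reverse <:+: L0.map (sh d) := by
  decide +kernel

theorem ext_col : ∀ j ∈ List.range 5, ∀ w ∈ ext j, ∀ x ∈ w, 2 ≤ x.1 := by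
  decide +kernel

theorem edge_of_infix {V : Type*} {G : SimpleGraph V} {a b : V} (p : G.Walk a b) :
    ∀ (l1 l2 : List V) (x y : V), p.support = l1 ++ x :: y :: l2 → s(x, y) ∈ p.edges := by
  induction p with
  | nil =>
    intro l1 l2 x y h
    have := congrArg List.length h
    simp at this; omega
  | @cons u v w h q ih =>
    intro l1 l2 x y hs
    rw [Walk.support_cons] at hs
    cases l1 with
    | nil =>
      simp only [List.nil_append, List.cons.injEq] at hs
      obtain ⟨h1, h2⟩ := hs
      have h3 : v = y := by
        have := q.cons_tail_support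
        rw [h2] at this
        simp at this
        exact this
      subst h1; subst h3
      simp
    | cons z l1 =>
      simp only [List.cons_append, List.cons.injEq] at hs
      have := ih l1 l2 x y hs.2
      simp [this]

theorem infix_of_edge {V : Type*} {G : SimpleGraph V} {a b : V} (p : G.Walk a b) :
    ∀ e ∈ p.edges, ∃ (l1 l2 : List V) (x y : V), e = s(x, y) ∧ p.support = l1 ++ x :: y :: l2 := by
  induction p with
  | nil => intro e he; simp at he
  | @cons u v w h q ih =>
    intro e he
    rw [Walk.edges_cons, List.mem_cons] at he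
    rcases he with he | he
    · refine ⟨[], q.support.tail, u, v, he, ?_⟩
      rw [Walk.support_cons, List.nil_append, q.cons_tail_support]
    · obtain ⟨l1, l2, x, y, h1, h2⟩ := ih e he
      exact ⟨u :: l1, l2, x, y, h1, by rw [Walk.support_cons, h2]; rfl⟩

theorem walk_of_chain {V : Type*} {G : SimpleGraph V} :
    ∀ (l : List V) (a : V), (a :: l).IsChain G.Adj → ∃ b, ∃ p : G.Walk a b, p.support = a :: l := by
  intro l
  induction l with
  | nil => intro a _; exact ⟨a, Walk.nil, rfl⟩
  | cons x l ih =>
    intro a h
    rw [List.isChain_cons_cons] at h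
    obtain ⟨b, p, hp⟩ := ih x h.2
    exact ⟨b, Walk.cons h.1 p, by rw [Walk.support_cons, hp]⟩

/-- a Hamiltonian cycle from a list -/
theorem ham_of_list {V : Type*} [Fintype V] [DecidableEq V] {G : SimpleGraph V} (l : List V)
    (h1 : l.Nodup) (h2 : l.length = Fintype.card V) (h3 : 3 ≤ l.length) (h4 : l.IsChain G.Adj)
    (h5 : ∀ a b, l.head? = some a → l.getLast? = some b → G.Adj b a) :
    ∃ w, ∃ c : G.Walk w w, c.IsHamiltonianCycle ∧
      ∀ l1 l2 x y, l = l1 ++ x :: y :: l2 → s(x, y) ∈ c.edges := by
  cases l with
  | nil => simp at h3
  | cons a t =>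
    obtain ⟨b, p, hp⟩ := walk_of_chain t a h4
    have hb : (a :: t).getLast? = some b := by
      rw [← hp, List.getLast?_eq_some_getLast (p.support_ne_nil), p.getLast_support]
    have hab : G.Adj b a := h5 a b rfl hb
    have hpath : p.IsPath := by rw [Walk.isPath_def, hp]; exact h1
    have hlen : p.length + 1 = (a :: t).length := by rw [← hp, p.length_support]
    refine ⟨b, Walk.cons hab p, ?_, ?_⟩
    · rw [Walk.isHamiltonianCycle_iff_isCycle_and_length_eq]
      refine ⟨?_, by rw [Walk.length_cons, hlen, h2]⟩
      rw [Walk.cons_isCycle_iff]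
      refine ⟨hpath, ?_⟩
      intro he
      obtain ⟨l1, l2, x, y, e1, e2⟩ := infix_of_edge p _ he
      rw [hp] at e2
      have hn := h1
      rw [e2] at hn hb h3
      rw [Sym2.eq_iff] at e1
      cases l1 with
      | nil =>
        simp only [List.nil_append, List.cons.injEq] at e2
        cases l2 with
        | nil => simp at h3
        | cons z l2 =>
          have hm : b ∈ z :: l2 := by
            have : (z :: l2).getLast? = some b := by simpa using hb
            exact List.mem_of_getLast? this
          simp only [List.nil_append, List.nodup_cons] at hn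
          rcases e1 with ⟨e, _⟩ | ⟨e, _⟩
          · exact hn.1 (by rw [← e]; exact List.mem_cons_of_mem _ hm)
          · exact hn.2.1 (by rw [← e]; exact hm)
      | cons z l1 =>
        simp only [List.cons_append, List.cons.injEq] at e2
        simp only [List.cons_append, List.nodup_cons] at hn
        rcases e1 with ⟨_, e⟩ | ⟨_, e⟩
        · exact hn.1 (by rw [← e2.1, e]; simp)
        · exact hn.1 (by rw [← e2.1, e]; simp)
    · intro l1 l2 x y h
      rw [Walk.edges_cons]
      exact List.mem_cons_of_mem _ (edge_of_infix p l1 l2 x y (by rw [hp, h]))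

end Pool.Agent.H.MP_b9f640_co
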